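import Pool.Agent.helper99.WN.SpecA

/-!
# MP_5c1f29_al, row wn:GR
-/

set_option autoImplicit false

open Classical

namespace Pool.Agent.WN

theorem GR_closure {V K : Type} [Group K] {S : Set (V × K × V)} {L : Set K}
    (hL : ∀ a x b, (a, x, b) ∈ S → x ∈ Subgroup.closure L) {a b : V} {h : K}
    (hp : PL S a b h) : h ∈ Subgroup.closure L := by
  induction hp with
  | nil => exact Subgroup.one_mem _
  | fwd _ he ih => exact Subgroup.mul_mem _ ih (hL _ _ _ he)
  | bwd _ he ih => exact Subgroup.mul_mem _ ih (Subgroup.inv_mem _ (hL _ _ _ he))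

theorem GR_const {V K : Type} [Group K] {S : Set (V × K × V)}
    (hL : ∀ a x b, (a, x, b) ∈ S → a = b) {a b : V} {h : K}
    (hp : PL S a b h) : a = b := by
  induction hp with
  | nil => rfl
  | fwd _ he ih => rw [ih]; exact hL _ _ _ he
  | bwd _ he ih => rw [ih]; exact (hL _ _ _ he).symm

/-- contraction of one edge: the two graphs have the same paths up to the gauge -/
theorem GR_step {V : Type} [Fintype V] {K : Type} [Group K] (E : Finset (V × K × V)) (v0 a b : V)
    (x : K) (hE : (a, x, b) ∈ E) (hab : a ≠ b) :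
    ∃ (V' : Type) (_ : Fintype V') (E' : Finset (V' × K × V')) (f : V → V') (γ : V → K),
      Fintype.card V' + 1 = Fintype.card V ∧ E'.card + 1 ≤ E.card ∧ Function.Surjective f ∧
      (∀ c d g, PL (E : Set (V × K × V)) c d g →
        PL (E' : Set (V' × K × V')) (f c) (f d) ((γ c)⁻¹ * g * γ d)) ∧
      (∀ h, PL (E' : Set (V' × K × V')) (f v0) (f v0) ((γ v0)⁻¹ * h * γ v0) →
        PL (E : Set (V × K × V)) v0 v0 h) := by
  have hfab : a ≠ b := hab
  set f : V → {v : V // v ≠ b} := fun v => if h : v = b then ⟨a, hab⟩ else ⟨v, h⟩ with hf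
  set γ : V → K := fun v => if v = b then x⁻¹ else 1 with hγ
  set E' : Finset ({v : V // v ≠ b} × K × {v : V // v ≠ b}) :=
    (E.erase (a, x, b)).image (fun p => (f p.1, (γ p.1)⁻¹ * p.2.1 * γ p.2.2, f p.2.2)) with hE'
  have hpath : ∀ v : V, PL (E : Set (V × K × V)) v (f v).1 (γ v) := by
    intro v
    by_cases h : v = b
    · subst h
      have h1 : (f v).1 = a := by simp [hf]
      have h2 : γ v = x⁻¹ := by simp [hγ]
      rw [h1, h2]
      exact PL.edge' (by exact_mod_cast hE)
    · have h1 : (f v).1 = v := by simp [hf, h]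
      have h2 : γ v = 1 := by simp [hγ, h]
      rw [h1, h2]
      exact PL.nil _
  refine ⟨{v : V // v ≠ b}, inferInstance, E', f, γ, ?_, ?_, ?_, ?_, ?_⟩
  · have h1 : Fintype.card {v : V // v ≠ b} = Fintype.card V - 1 := by
      rw [Fintype.card_subtype_compl]
      simp
    have h2 : 0 < Fintype.card V := Fintype.card_pos_iff.2 ⟨b⟩
    omega
  · have h1 : E'.card ≤ (E.erase (a, x, b)).card := Finset.card_image_le
    have h2 : (E.erase (a, x, b)).card = E.card - 1 := Finset.card_erase_of_mem hE
    have h3 : 0 < E.card := Finset.card_pos.2 ⟨_, hE⟩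
    omega
  · rintro ⟨v, hv⟩
    exact ⟨v, by simp [hf, hv]⟩
  · intro c d g hp
    refine PL.mor f γ ?_ hp
    intro c y d hcd
    by_cases he : (c, y, d) = (a, x, b)
    · have h1 : c = a := congrArg Prod.fst he
      have h2 : y = x := congrArg (fun p => p.2.1) he
      have h3 : d = b := congrArg (fun p => p.2.2) he
      rw [h1, h2, h3]
      have h4 : γ a = 1 := by simp [hγ, hab]
      have h5 : γ b = x⁻¹ := by simp [hγ]
      have h6 : f a = f b := by simp [hf, hab]
      rw [h4, h5, h6]
      have h7 : (1 : K)⁻¹ * x * x⁻¹ = 1 := by group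
      rw [h7]
      exact PL.nil _
    · apply PL.edge
      have h1 : (c, y, d) ∈ E.erase (a, x, b) := Finset.mem_erase.2 ⟨he, by exact_mod_cast hcd⟩
      have h2 := Finset.mem_image_of_mem
        (fun p : V × K × V => (f p.1, (γ p.1)⁻¹ * p.2.1 * γ p.2.2, f p.2.2)) h1
      exact_mod_cast h2
  · intro h hp
    have h1 : PL (E : Set (V × K × V)) (f v0).1 (f v0).1 ((γ v0)⁻¹ * h * γ v0) := by
      refine PL.map (fun v : {v : V // v ≠ b} => v.1) ?_ hp
      intro c' y' d' hcd
      have h2 : (c', y', d') ∈ E' := by exact_mod_cast hcd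
      rw [hE', Finset.mem_image] at h2
      obtain ⟨⟨c, y, d⟩, h3, h4⟩ := h2
      have h5 : f c = c' := congrArg Prod.fst h4
      have h6 : (γ c)⁻¹ * y * γ d = y' := congrArg (fun p => p.2.1) h4
      have h7 : f d = d' := congrArg (fun p => p.2.2) h4
      have h8 : (c, y, d) ∈ E := Finset.mem_of_mem_erase h3
      rw [← h5, ← h6, ← h7]
      exact ((hpath c).symm.trans (PL.edge (by exact_mod_cast h8))).trans (hpath d)
    have h2 := ((hpath v0).trans h1).trans (hpath v0).symm
    have h3 : γ v0 * ((γ v0)⁻¹ * h * γ v0) * (γ v0)⁻¹ = h := by group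
    rwa [h3] at h2

theorem GR_main (n : ℕ) : ∀ (V : Type) [Fintype V] (K : Type) [Group K] (E : Finset (V × K × V))
    (v0 : V), Fintype.card V = n + 1 →
    (∀ a b : V, ∃ g, PL (E : Set (V × K × V)) a b g) →
    ∃ (m : ℕ) (r : Fin m → K), m + Fintype.card V ≤ E.card + 1 ∧
      ∀ h : K, PL (E : Set (V × K × V)) v0 v0 h ↔ h ∈ Subgroup.closure (Set.range r) := by
  induction n with
  | zero =>
    intro V _ K _ E v0 hcard hconn
    refine ⟨E.card, fun i => (E.equivFin.symm i).1.2.1, by omega, ?_⟩
    intro h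
    have hsub : ∀ a b : V, a = b := by
      have : Fintype.card V ≤ 1 := by omega
      exact fun a b => (Fintype.card_le_one_iff.1 this) a b
    constructor
    · intro hp
      refine GR_closure ?_ hp
      intro a x b he
      apply Subgroup.subset_closure
      have he' : (a, x, b) ∈ E := by exact_mod_cast he
      exact ⟨E.equivFin ⟨(a, x, b), he'⟩, by simp⟩
    · intro hh
      have hle : Subgroup.closure (Set.range fun i : Fin E.card => (E.equivFin.symm i).1.2.1) ≤
          loopG (E : Set (V × K × V)) v0 := by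
        rw [Subgroup.closure_le]
        rintro _ ⟨i, rfl⟩
        have hi := (E.equivFin.symm i).2
        rcases hq : (E.equivFin.symm i).1 with ⟨a, x, b⟩
        rw [hq] at hi
        have ha : a = v0 := hsub _ _
        have hb : b = v0 := hsub _ _
        subst ha
        subst hb
        have h9 : PL (E : Set (V × K × V)) b b x := PL.edge (by exact_mod_cast hi)
        simpa [hq, mem_loopG] using h9
      exact hle hh
  | succ n ih =>
    intro V _ K _ E v0 hcard hconn
    have hex : ∃ a x b, (a, x, b) ∈ E ∧ a ≠ b := by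
      by_contra hno
      push Not at hno
      have h1 : 1 < Fintype.card V := by omega
      obtain ⟨u, v, huv⟩ := Fintype.one_lt_card_iff.1 h1
      obtain ⟨g, hg⟩ := hconn u v
      exact huv (GR_const (fun a x b he => hno a x b (by exact_mod_cast he)) hg)
    obtain ⟨a, x, b, hE, hab⟩ := hex
    obtain ⟨V', _, E', f, γ, h1, h2, h3, h4, h5⟩ := GR_step E v0 a b x hE hab
    have hconn' : ∀ a b : V', ∃ g, PL (E' : Set (V' × K × V')) a b g := by
      intro a' b'
      obtain ⟨c, rfl⟩ := h3 a'
      obtain ⟨d, rfl⟩ := h3 b'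
      obtain ⟨g, hg⟩ := hconn c d
      exact ⟨_, h4 c d g hg⟩
    obtain ⟨m, r, h6, h7⟩ := ih V' K E' (f v0) (by omega) hconn'
    refine ⟨m, fun i => γ v0 * r i * (γ v0)⁻¹, by omega, ?_⟩
    intro h
    have h8 : PL (E : Set (V × K × V)) v0 v0 h ↔
        (γ v0)⁻¹ * h * γ v0 ∈ Subgroup.closure (Set.range r) := by
      rw [← h7]
      exact ⟨fun hp => h4 _ _ _ hp, fun hp => h5 h hp⟩
    rw [h8]
    have h9 : (Set.range fun i => γ v0 * r i * (γ v0)⁻¹) =
        (MulAut.conj (γ v0)).toMonoidHom '' Set.range r := by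
      ext y
      simp [Set.mem_range, MulAut.conj_apply]
    rw [h9, ← MonoidHom.map_closure, Subgroup.mem_map]
    constructor
    · intro hh
      refine ⟨_, hh, ?_⟩
      simp only [MulEquiv.coe_toMonoidHom, MulAut.conj_apply]
      group
    · rintro ⟨y, hy, rfl⟩
      simp only [MulEquiv.coe_toMonoidHom, MulAut.conj_apply]
      have h10 : (γ v0)⁻¹ * (γ v0 * y * (γ v0)⁻¹) * γ v0 = y := by group
      rwa [h10]

theorem GR : GR_stmt := by
  intro V _ K _ E v0 hconn
  have h1 : 0 < Fintype.card V := Fintype.card_pos_iff.2 ⟨v0⟩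
  exact GR_main (Fintype.card V - 1) V K E v0 (by omega) hconn

end Pool.Agent.WN
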